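import Pool.Agent.H22.HD.Stmts
import Pool.Agent.H13.Heat.GBb
import Pool.Agent.H44.Heat.H

/-!
# Module CON of project HD (MP_744226_an): the consequence of the inequality of Q1
-/

set_option autoImplicit false

open MeasureTheory ProbabilityTheory

namespace Pool.Agent.H22.HD

namespace Con

open Pool.Agent.H58.Heat Pool.Agent.H44.Heat

/-- transfer from the product space to the Euclidean space -/
theorem transfer {n : ℕ} (F : (Fin n → ℝ) → ℝ) (hF : Continuous F) (P : ENNReal) :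
    eLpNorm F P (gam (Fin n)) = eLpNorm (fun x : E n => F (fun i => x i)) P (gm n) ∧
    ∫ x, F x ∂(gam (Fin n)) = ∫ x : E n, F (fun i => x i) ∂(gm n) := by
  have hc : Continuous (fun x : E n => F (fun i => x i)) :=
    hF.comp (continuous_pi fun i => by fun_prop)
  constructor
  · unfold gm gam
    rw [← map_pi_eq_stdGaussian, eLpNorm_map_measure hc.aestronglyMeasurable (by fun_prop)]
    rfl
  · unfold gm gam
    rw [← map_pi_eq_stdGaussian, integral_map (by fun_prop) hc.aestronglyMeasurable]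

/-- the inverse of the number operator on the tail space -/
theorem inv {n d : ℕ} (hd : 1 ≤ d) {f : (Fin n → ℝ) → ℝ} (hf : f ∈ TT (Fin n) d) :
    ∃ q : MvPolynomial (Fin n) ℝ, (fun y => MvPolynomial.eval y q) ∈ TT (Fin n) d ∧
      ∀ y, MvPolynomial.eval y (NNq q) = f y := by
  unfold TT at hf
  induction hf using Submodule.span_induction with
  | mem g hg =>
    obtain ⟨α, hα, rfl⟩ := hg
    refine ⟨((∑ i, α i : ℕ) : ℝ)⁻¹ • hp α, ?_, ?_⟩
    · have h1 : (fun y => MvPolynomial.eval y (((∑ i, α i : ℕ) : ℝ)⁻¹ • hp α)) =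
          ((∑ i, α i : ℕ) : ℝ)⁻¹ •
            (fun x => ∏ i, Polynomial.aeval (x i) (Polynomial.hermite (α i))) := by
        funext y
        rw [MvPolynomial.smul_eval, eval_hp, Pi.smul_apply, smul_eq_mul]
      rw [h1]
      exact Submodule.smul_mem _ _ (Submodule.subset_span ⟨α, hα, rfl⟩)
    · intro y
      rw [NNq_smul, NNq_hp, MvPolynomial.smul_eval, map_mul, map_natCast, eval_hp, ← mul_assoc,
        inv_mul_cancel₀, one_mul]
      have : 0 < ∑ i, α i := lt_of_lt_of_le hd hα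
      exact_mod_cast this.ne'
  | zero =>
    refine ⟨0, ?_, ?_⟩
    · have h1 : (fun y : Fin n → ℝ => MvPolynomial.eval y (0 : MvPolynomial (Fin n) ℝ)) = 0 := by
        funext y
        simp
      rw [h1]
      exact Submodule.zero_mem _
    · intro y
      rw [NNq_zero]
      simp
  | add g g' _ _ ih ih' =>
    obtain ⟨q, h1, h2⟩ := ih
    obtain ⟨q', h1', h2'⟩ := ih'
    refine ⟨q + q', ?_, ?_⟩
    · have h3 : (fun y : Fin n → ℝ => MvPolynomial.eval y (q + q')) =
          (fun y => MvPolynomial.eval y q) + (fun y => MvPolynomial.eval y q') := by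
        funext y
        simp
      rw [h3]
      exact Submodule.add_mem _ h1 h1'
    · intro y
      rw [NNq_add, map_add, h2, h2', Pi.add_apply]
  | smul c g _ ih =>
    obtain ⟨q, h1, h2⟩ := ih
    refine ⟨c • q, ?_, ?_⟩
    · have h3 : (fun y : Fin n → ℝ => MvPolynomial.eval y (c • q)) =
          c • (fun y => MvPolynomial.eval y q) := by
        funext y
        rw [MvPolynomial.smul_eval, Pi.smul_apply, smul_eq_mul]
      rw [h3]
      exact Submodule.smul_mem _ _ h1
    · intro y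
      rw [NNq_smul, MvPolynomial.smul_eval, h2, Pi.smul_apply, smul_eq_mul]

variable {n : ℕ}

/-- the `L¹` norm is at most the `Lᵖ` norm -/
theorem l1 {h : E n → ℝ} (hc : Continuous h) (he : EG h) {p : ℝ} (hp : 1 ≤ p) :
    ENNReal.ofReal (∫ x, |h x| ∂gm n) ≤ eLpNorm h (ENNReal.ofReal p) (gm n) := by
  have hI : Integrable h (gm n) := Pool.Agent.H13.Heat.GB1 h hc.aestronglyMeasurable he
  have h1 : ENNReal.ofReal (∫ x, |h x| ∂gm n) = eLpNorm h 1 (gm n) := by
    rw [eLpNorm_one_eq_lintegral_enorm, ← ofReal_integral_norm_eq_lintegral_enorm hI]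
    rfl
  rw [h1]
  apply eLpNorm_le_eLpNorm_of_exponent_le _ hc.aestronglyMeasurable
  rw [← ENNReal.ofReal_one]
  exact ENNReal.ofReal_le_ofReal hp

theorem memLp {h : E n → ℝ} (hc : Continuous h) (he : EG h) {p : ℝ} (hp : p ≤ 2) :
    MemLp h (ENNReal.ofReal p) (gm n) := by
  have h2 : MemLp h 2 (gm n) := by
    rw [memLp_two_iff_integrable_sq hc.aestronglyMeasurable]
    refine Pool.Agent.H13.Heat.GB1 _ (hc.pow 2).aestronglyMeasurable ?_
    exact Pool.Agent.H13.Heat.eg_mono (Pool.Agent.H13.Heat.eg_mul he he) fun x => by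
      rw [pow_two]
  refine h2.mono_exponent ?_
  have : (2 : ENNReal) = ENNReal.ofReal 2 := by simp
  rw [this]
  exact ENNReal.ofReal_le_ofReal hp

theorem lp {h : E n → ℝ} (hc : Continuous h) (he : EG h) {p : ℝ} (hp1 : 1 < p) (hp : p ≤ 2) :
    eLpNorm h (ENNReal.ofReal p) (gm n) =
      ENNReal.ofReal ((∫ x, |h x| ^ p ∂gm n) ^ (1 / p)) := by
  have hp0 : 0 < p := by linarith
  rw [(memLp hc he hp).eLpNorm_eq_integral_rpow_norm (by simpa using hp0) ENNReal.ofReal_ne_top,
    ENNReal.toReal_ofReal hp0.le, one_div]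
  rfl

/-- gradient of a Lipschitz function -/
theorem grad {f0 : (Fin n → ℝ) → ℝ} {Λ : ℝ} (hΛ : 0 ≤ Λ)
    (hL : ∀ x y, (f0 x - f0 y) ^ 2 ≤ Λ * ∑ i, (x i - y i) ^ 2) (x : E n) :
    ‖fderiv ℝ (fun x : E n => f0 (fun i => x i)) x‖ ≤ Real.sqrt Λ := by
  refine norm_fderiv_le_of_lip' ℝ (Real.sqrt_nonneg _) (Filter.Eventually.of_forall fun y => ?_)
  have h1 := hL (fun i => y i) (fun i => x i)
  have h2 : ∑ i, (y i - x i) ^ 2 = ‖y - x‖ ^ 2 := by
    rw [EuclideanSpace.real_norm_sq_eq]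
    rfl
  rw [h2] at h1
  rw [Real.norm_eq_abs]
  apply abs_le_of_sq_le_sq _ (by positivity)
  rw [mul_pow, Real.sq_sqrt hΛ]
  exact h1

end Con

open Pool.Agent.H58.Heat Pool.Agent.H44.Heat

/-- CON -/
theorem con_thm (hCN1 : CN1Stmt) : CONStmt := by
  intro p c hp1 hp2 hc hQI n d f0 f Λ hd hf0 hf0b hL hv hf hdist
  have hp0 : 0 < p := by linarith
  obtain ⟨q, hq1, hq2⟩ := Con.inv hd hf
  set g : (Fin n → ℝ) → ℝ := fun y => MvPolynomial.eval y q with hg
  set g' : E n → ℝ := fun x => MvPolynomial.eval (fun i => x i) q with hg'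
  have hgp : IsPoly g' := ⟨q, fun _ => rfl⟩
  set f' : E n → ℝ := fun x => f (fun i => x i) with hf'
  set f0' : E n → ℝ := fun x => f0 (fun i => x i) with hf0'
  have hNN : ∀ x, NN g' x = f' x := fun x => by
    rw [NN_eq_eval (q := q) (fun _ => rfl) x, hq2]
  have hNNf : NN g' = f' := funext hNN
  obtain ⟨gC, gE, gD, -, gN⟩ := Pool.Agent.H13.Heat.GB5 g' hgp
  rw [hNNf] at gN
  obtain ⟨fC, fE, fD, -, -⟩ := Pool.Agent.H13.Heat.GB5 f' gN
  have hfc : Continuous f' := fC.continuous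
  have hgc : Continuous g' := gC.continuous
  have hfpi : Continuous f := by
    have : f = fun y => MvPolynomial.eval y (NNq q) := funext fun y => (hq2 y).symm
    rw [this]
    exact MvPolynomial.continuous_eval _
  have hproj : ContDiff ℝ 1 (fun x : E n => (fun i => x i : Fin n → ℝ)) := by
    rw [contDiff_pi]
    intro i
    fun_prop
  have hf0C : ContDiff ℝ 1 f0' := hf0.comp hproj
  have hf0c : Continuous f0' := hf0C.continuous
  -- nonnegative Lipschitz constant
  set Λ' : ℝ := max Λ 0 with hΛ'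
  have hΛ0 : 0 ≤ Λ' := le_max_right _ _
  have hL' : ∀ x y, (f0 x - f0 y) ^ 2 ≤ Λ' * ∑ i, (x i - y i) ^ 2 := fun x y =>
    (hL x y).trans (mul_le_mul_of_nonneg_right (le_max_left _ _)
      (Finset.sum_nonneg fun i _ => sq_nonneg _))
  have hgrad : ∀ x, ‖fderiv ℝ f0' x‖ ≤ Real.sqrt Λ' := fun x => Con.grad hΛ0 hL' x
  have hf0E : EG f0' := Pool.Agent.H13.Heat.eg_mono (Pool.Agent.H13.Heat.eg_const (1:ℝ))
    fun x => by
      rw [Real.norm_eq_abs, norm_one]
      exact hf0b _
  have hf0D : EG (fderiv ℝ f0') := Pool.Agent.H13.Heat.eg_mono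
    (Pool.Agent.H13.Heat.eg_const (Real.sqrt Λ')) fun x => by
      rw [Real.norm_eq_abs (Real.sqrt Λ'), abs_of_nonneg (Real.sqrt_nonneg _)]
      exact hgrad x
  -- the distance
  have hdist' : eLpNorm (fun x => f' x - f0' x) (ENNReal.ofReal p) (gm n) ≤
      ENNReal.ofReal (1 / 8) := by
    rw [← (Con.transfer (fun x => f x - f0 x) (hfpi.sub hf0.continuous) _).1]
    exact hdist
  have hv' : 1 / 4 ≤ ∫ x, f0' x ^ 2 ∂gm n := by
    rw [← (Con.transfer (fun x => f0 x ^ 2) (hf0.continuous.pow 2) 1).2]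
    exact hv
  have hdE : EG (fun x => f' x - f0' x) := Pool.Agent.H13.Heat.eg_sub fE hf0E
  have hd1 : ∫ x, |f' x - f0' x| ∂gm n ≤ 1 / 8 := by
    have h1 := (Con.l1 (hfc.sub hf0c) hdE hp1.le).trans hdist'
    exact (ENNReal.ofReal_le_ofReal_iff (by norm_num)).1 h1
  -- the integral of `f f0`
  have hlow : 1 / 8 ≤ ∫ x, f' x * f0' x ∂gm n := by
    have i1 : Integrable (fun x => f0' x ^ 2) (gm n) :=
      Pool.Agent.H13.Heat.GB1 _ (hf0c.pow 2).aestronglyMeasurable
        (Pool.Agent.H13.Heat.eg_mono (Pool.Agent.H13.Heat.eg_mul hf0E hf0E) fun x => by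
          rw [pow_two])
    have i2 : Integrable (fun x => |f' x - f0' x|) (gm n) :=
      (Pool.Agent.H13.Heat.GB1 _ (hfc.sub hf0c).aestronglyMeasurable hdE).abs
    have i3 : Integrable (fun x => f' x * f0' x) (gm n) :=
      Pool.Agent.H13.Heat.GB1 _ (hfc.mul hf0c).aestronglyMeasurable
        (Pool.Agent.H13.Heat.eg_mul fE hf0E)
    have h1 : ∫ x, (f0' x ^ 2 - |f' x - f0' x|) ∂gm n ≤ ∫ x, f' x * f0' x ∂gm n := by
      refine integral_mono (i1.sub i2) i3 fun x => ?_
      show f0' x ^ 2 - |f' x - f0' x| ≤ f' x * f0' x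
      have h2 : f' x * f0' x = f0' x ^ 2 + (f' x - f0' x) * f0' x := by ring
      have h3 : |(f' x - f0' x) * f0' x| ≤ |f' x - f0' x| := by
        rw [abs_mul]
        exact mul_le_of_le_one_right (abs_nonneg _) (hf0b _)
      have h4 := neg_abs_le ((f' x - f0' x) * f0' x)
      linarith
    rw [integral_sub i1 i2] at h1
    linarith
  -- integration by parts
  have hibp : ∫ x, f' x * f0' x ∂gm n = ∫ x, gd g' f0' x ∂gm n := by
    have h1 := Pool.Agent.H13.Heat.GB2 g' f0' hgp hf0C hf0E hf0D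
    rw [← h1, hNNf]
  set h : E n → ℝ := fun x => Real.sqrt (gd g' g' x) with hh
  have hhn : ∀ x, h x = ‖fderiv ℝ g' x‖ := fun x => by
    rw [hh]
    simp only
    rw [(Pool.Agent.H13.Heat.GB6 g' g' x).2, Real.sqrt_sq (norm_nonneg _)]
  have hhn' : h = fun x => ‖fderiv ℝ g' x‖ := funext hhn
  have hhc : Continuous h := by
    rw [hhn']
    exact (gC.continuous_fderiv (by simp)).norm
  have hhE : EG h := by
    rw [hhn']
    exact Pool.Agent.H13.Heat.eg_norm gD
  have hh0 : ∀ x, 0 ≤ h x := fun x => Real.sqrt_nonneg _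
  have hup : ∫ x, gd g' f0' x ∂gm n ≤ Real.sqrt Λ' * ∫ x, |h x| ∂gm n := by
    rw [← integral_const_mul]
    have i1 : Integrable (fun x => Real.sqrt Λ' * |h x|) (gm n) :=
      ((Pool.Agent.H13.Heat.GB1 _ hhc.aestronglyMeasurable hhE).abs).const_mul _
    have h1 := norm_integral_le_of_norm_le (f := fun x => gd g' f0' x) i1
      (Filter.Eventually.of_forall fun x => by
        have h2 := (Pool.Agent.H13.Heat.GB6 g' f0' x).1
        rw [Real.norm_eq_abs]
        refine h2.trans ?_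
        rw [← hhn x, abs_of_nonneg (hh0 x), mul_comm]
        exact mul_le_mul_of_nonneg_right (hgrad x) (hh0 x))
    exact (le_abs_self _).trans h1
  have hX : ∫ x, |h x| ∂gm n ≤ (∫ x, |h x| ^ p ∂gm n) ^ (1 / p) := by
    have h1 := Con.l1 hhc hhE hp1.le
    rw [Con.lp hhc hhE hp1 hp2.le] at h1
    exact (ENNReal.ofReal_le_ofReal_iff (by positivity)).1 h1
  -- the norms of `g` and `f`
  set A : ℝ := ∫ x, |g' x| ^ p ∂gm n with hA
  set B : ℝ := ∫ x, |f' x| ^ p ∂gm n with hB
  have hA0 : 0 ≤ A := integral_nonneg fun x => by positivity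
  have hB0 : 0 ≤ B := integral_nonneg fun x => by positivity
  have hdr : (0:ℝ) < d := by exact_mod_cast hd
  have hGF : c * d * A ^ (1 / p) ≤ B ^ (1 / p) := by
    have h1 := hQI d hd n g hq1
    obtain ⟨t1, t2⟩ := H2 g g' hgp (fun _ => rfl) p hp1
    rw [t1, t2, hNNf, Con.lp hgc gE hp1 hp2.le, Con.lp hfc fE hp1 hp2.le,
      ← ENNReal.ofReal_mul (by positivity)] at h1
    exact (ENNReal.ofReal_le_ofReal_iff (by positivity)).1 h1
  have hF : B ^ (1 / p) ≤ 9 / 8 := by
    have h1 : eLpNorm f' (ENNReal.ofReal p) (gm n) ≤ ENNReal.ofReal (9 / 8) := by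
      have h2 : f' = (fun x => f' x - f0' x) + f0' := by
        funext x
        simp
      rw [h2]
      refine (eLpNorm_add_le (hfc.sub hf0c).aestronglyMeasurable hf0c.aestronglyMeasurable
        (by rw [← ENNReal.ofReal_one]; exact ENNReal.ofReal_le_ofReal hp1.le)).trans ?_
      have h3 : eLpNorm f0' (ENNReal.ofReal p) (gm n) ≤ ENNReal.ofReal 1 := by
        refine (eLpNorm_le_of_ae_bound (C := 1) (Filter.Eventually.of_forall fun x => ?_)).trans ?_
        · rw [Real.norm_eq_abs]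
          exact hf0b _
        · simp
      calc _ ≤ ENNReal.ofReal (1 / 8) + ENNReal.ofReal 1 := add_le_add hdist' h3
        _ = ENNReal.ofReal (9 / 8) := by
          rw [← ENNReal.ofReal_add (by norm_num) (by norm_num)]
          norm_num
    rw [Con.lp hfc fE hp1 hp2.le] at h1
    exact (ENNReal.ofReal_le_ofReal_iff (by norm_num)).1 h1
  have hI := hCN1 p hp1 hp2 n g' hgp
  rw [hNNf] at hI
  have hI' : ∫ x, |h x| ^ p ∂gm n ≤ (1 / (p - 1)) ^ (p / 2) *
      (A ^ (1 / 2 : ℝ) * B ^ (1 / 2 : ℝ)) := by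
    have h1 : ∀ x, |h x| ^ p = (Real.sqrt (gd g' g' x)) ^ p := fun x => by
      rw [abs_of_nonneg (hh0 x)]
    simp only [h1]
    exact hI
  have hpm : 0 < p - 1 := by linarith
  have hI0 : 0 ≤ ∫ x, |h x| ^ p ∂gm n := integral_nonneg fun x => by positivity
  have hH2 : ((∫ x, |h x| ^ p ∂gm n) ^ (1 / p)) ^ 2 ≤
      1 / (p - 1) * (A ^ (1 / p) * B ^ (1 / p)) := by
    have e1 : ((∫ x, |h x| ^ p ∂gm n) ^ (1 / p)) ^ 2 = (∫ x, |h x| ^ p ∂gm n) ^ (2 / p) := by
      rw [← Real.rpow_natCast, ← Real.rpow_mul hI0]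
      congr 1
      push_cast
      ring
    rw [e1]
    refine (Real.rpow_le_rpow hI0 hI' (by positivity)).trans (le_of_eq ?_)
    rw [Real.mul_rpow (by positivity) (by positivity), Real.mul_rpow (by positivity)
      (by positivity), ← Real.rpow_mul (by positivity), ← Real.rpow_mul hA0, ← Real.rpow_mul hB0]
    have e2 : p / 2 * (2 / p) = 1 := by field_simp
    have e3 : 1 / 2 * (2 / p) = 1 / p := by field_simp
    rw [e2, e3, Real.rpow_one]
  set H : ℝ := (∫ x, |h x| ^ p ∂gm n) ^ (1 / p) with hH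
  set G : ℝ := A ^ (1 / p) with hG
  set F : ℝ := B ^ (1 / p) with hFF
  have hH0 : 0 ≤ H := by positivity
  have hG0 : 0 ≤ G := by positivity
  have hF0 : 0 ≤ F := by positivity
  have h8 : 1 / 8 ≤ Real.sqrt Λ' * H := by
    rw [hibp] at hlow
    exact hlow.trans (hup.trans (mul_le_mul_of_nonneg_left hX (Real.sqrt_nonneg _)))
  have h64 : 1 / 64 ≤ Λ' * H ^ 2 := by
    have h1 : (1 / 8 : ℝ) ^ 2 ≤ (Real.sqrt Λ' * H) ^ 2 := pow_le_pow_left₀ (by norm_num) h8 2
    rw [mul_pow, Real.sq_sqrt hΛ0] at h1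
    linarith
  have hfin : c * (p - 1) * d ≤ 81 * Λ' := by
    have h1 : (p - 1) * H ^ 2 ≤ G * F := by
      have h2 := mul_le_mul_of_nonneg_left hH2 hpm.le
      rw [← mul_assoc, mul_one_div, div_self hpm.ne', one_mul] at h2
      exact h2
    have h2 : c * d * (G * F) ≤ 81 / 64 := by
      have h3 : c * d * G * F ≤ F * F := mul_le_mul_of_nonneg_right hGF hF0
      nlinarith
    have hcd : 0 < c * d := by positivity
    have h3 : c * d * ((p - 1) * H ^ 2) ≤ 81 / 64 :=
      (mul_le_mul_of_nonneg_left h1 hcd.le).trans h2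
    have h4 : c * (p - 1) * d * (1 / 64) ≤ c * (p - 1) * d * (Λ' * H ^ 2) :=
      mul_le_mul_of_nonneg_left h64 (by positivity)
    have h5 : c * (p - 1) * d * (Λ' * H ^ 2) = Λ' * (c * d * ((p - 1) * H ^ 2)) := by ring
    have h6 : Λ' * (c * d * ((p - 1) * H ^ 2)) ≤ Λ' * (81 / 64) :=
      mul_le_mul_of_nonneg_left h3 hΛ0
    linarith
  have hpos : 0 < Λ' := by
    have : 0 < c * (p - 1) * d := by positivity
    linarith
  have hΛe : Λ' = Λ := by
    rw [hΛ'] at hpos ⊢
    rcases le_total Λ 0 with h1 | h1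
    · rw [max_eq_right h1] at hpos
      exact absurd hpos (lt_irrefl _)
    · exact max_eq_left h1
  rw [← hΛe]
  exact hfin

end Pool.Agent.H22.HD
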